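import Pool.Agent.helper84.WZ.SpecA

/-!
# Project wz, module LB: double annihilator with uniform denominators
-/

set_option autoImplicit false

namespace WZ

theorem LB_span (M : ℕ) (Q : Finset (ℕ → ℕ)) (δ : ℕ → ℤ)
    (h : ∀ ψ : ℕ → ℚ, Ann M (Q : Set (ℕ → ℕ)) ψ →
      ∑ q ∈ Finset.range M, ψ q * (δ q : ℚ) = 0) :
    ∃ r : (ℕ → ℕ) → ℚ, ∀ q, q < M → (δ q : ℚ) = ∑ π ∈ Q, r π * (π q : ℚ) := by
  classical
  set v : (ℕ → ℕ) → (Fin M → ℚ) := fun π i => (π i : ℚ) with hv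
  set w : Fin M → ℚ := fun i => (δ i : ℚ) with hw
  have hmem : w ∈ Submodule.span ℚ (v '' (Q : Set (ℕ → ℕ))) := by
    by_contra hn
    obtain ⟨f, hker, hf⟩ := Submodule.exists_le_ker_of_notMem hn
    let ψ : ℕ → ℚ := fun q =>
      if hq : q < M then f (fun j => if (⟨q, hq⟩ : Fin M) = j then 1 else 0) else 0
    have hval : ∀ x : ℕ → ℚ, f (fun i : Fin M => x i) =
        ∑ q ∈ Finset.range M, ψ q * x q := by
      intro x
      rw [LinearMap.pi_apply_eq_sum_univ f, Finset.sum_range]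
      refine Finset.sum_congr rfl fun i _ => ?_
      simp only [ψ, i.isLt, dif_pos, smul_eq_mul, Fin.eta]
      ring
    apply hker
    rw [hw, hval (fun q => (δ q : ℚ))]
    apply h
    intro π hπ
    have h1 := hval (fun q => (π q : ℚ))
    rw [← h1]
    exact hf (Submodule.subset_span ⟨π, hπ, rfl⟩)
  rw [Finsupp.mem_span_image_iff_linearCombination] at hmem
  obtain ⟨c, hc, hcw⟩ := hmem
  refine ⟨c, fun q hq => ?_⟩
  have h2 := congrFun hcw ⟨q, hq⟩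
  rw [Finsupp.linearCombination_apply, Finsupp.sum_of_support_subset c
    ((Finsupp.mem_supported' ℚ c).1 hc |> fun h3 => fun π hπ => by
      by_contra hn
      exact (Finsupp.mem_support_iff.1 hπ) (h3 π hn)) _ (by simp)] at h2
  simp only [Finset.sum_apply, Pi.smul_apply, smul_eq_mul, hv, hw] at h2
  exact h2.symm

theorem LB_clear (M : ℕ) (Q : Finset (ℕ → ℕ)) (δ : ℕ → ℤ)
    (h : ∀ ψ : ℕ → ℚ, Ann M (Q : Set (ℕ → ℕ)) ψ →
      ∑ q ∈ Finset.range M, ψ q * (δ q : ℚ) = 0) :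
    ∃ (d K : ℕ) (c : (ℕ → ℕ) → ℤ), 1 ≤ d ∧ (∀ π, |c π| ≤ K) ∧
      ∀ q, q < M → (d : ℤ) * δ q = ∑ π ∈ Q, c π * (π q : ℤ) := by
  classical
  obtain ⟨r, hr⟩ := LB_span M Q δ h
  set d : ℕ := ∏ π ∈ Q, (r π).den with hd
  have hdpos : 1 ≤ d := Finset.prod_pos fun π _ => (r π).pos
  set c : (ℕ → ℕ) → ℤ := fun π => if π ∈ Q then (r π).num * ((d / (r π).den : ℕ) : ℤ) else 0
    with hc
  have hcr : ∀ π ∈ Q, (c π : ℚ) = d * r π := by
    intro π hπ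
    have hdvd : (r π).den ∣ d := Finset.dvd_prod_of_mem _ hπ
    obtain ⟨m, hm⟩ := hdvd
    have hden : ((r π).den : ℚ) ≠ 0 := by exact_mod_cast (r π).pos.ne'
    have h1 : d / (r π).den = m := by
      rw [hm]; exact Nat.mul_div_cancel_left m (r π).pos
    simp only [hc, if_pos hπ, h1]
    rw [hm]
    have h2 : ((r π).num : ℚ) = r π * (r π).den := (Rat.mul_den_eq_num (r π)).symm
    push_cast
    rw [h2]
    ring
  refine ⟨d, ∑ π ∈ Q, (c π).natAbs, c, hdpos, ?_, ?_⟩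
  · intro π
    by_cases hπ : π ∈ Q
    · have h1 : (c π).natAbs ≤ ∑ π ∈ Q, (c π).natAbs :=
        Finset.single_le_sum (f := fun π => (c π).natAbs) (fun _ _ => Nat.zero_le _) hπ
      rw [Int.abs_eq_natAbs]
      exact_mod_cast h1
    · simp only [hc, if_neg hπ, abs_zero]
      positivity
  · intro q hq
    have h1 : ((d : ℚ)) * (δ q : ℚ) = ∑ π ∈ Q, (c π : ℚ) * (π q : ℚ) := by
      rw [hr q hq, Finset.mul_sum]
      refine Finset.sum_congr rfl fun π hπ => ?_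
      rw [hcr π hπ]; ring
    exact_mod_cast h1

theorem LB_finite (M B : ℕ) :
    {π : ℕ → ℕ | (∀ q, π q ≤ B) ∧ ∀ q, M ≤ q → π q = 0}.Finite := by
  classical
  have hinj : Set.InjOn (fun (π : ℕ → ℕ) (i : Fin M) => (⟨min (π i) B,
      Nat.lt_succ_of_le (min_le_right _ _)⟩ : Fin (B + 1)))
      {π : ℕ → ℕ | (∀ q, π q ≤ B) ∧ ∀ q, M ≤ q → π q = 0} := by
    intro π hπ π' hπ' h
    funext q
    by_cases hq : q < M
    · have h1 := congrFun h ⟨q, hq⟩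
      simp only [Fin.mk.injEq] at h1
      rw [min_eq_left (hπ.1 q), min_eq_left (hπ'.1 q)] at h1
      exact h1
    · rw [hπ.2 q (by omega), hπ'.2 q (by omega)]
  exact Set.Finite.of_finite_image (Set.toFinite _) hinj

theorem LB : LB_stmt := by
  classical
  intro M B Δ
  set S : Finset (ℕ → ℕ) := (LB_finite M B).toFinset with hS
  -- the finite set of all problems
  set I : Finset (Finset (ℕ → ℕ) × (ℕ → ℤ)) := S.powerset ×ˢ Δ with hI
  have key : ∀ x : Finset (ℕ → ℕ) × (ℕ → ℤ), ∃ (d K : ℕ) (c : (ℕ → ℕ) → ℤ), 1 ≤ d ∧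
      (∀ π, |c π| ≤ K) ∧
      ((∀ ψ : ℕ → ℚ, Ann M (x.1 : Set (ℕ → ℕ)) ψ →
        ∑ q ∈ Finset.range M, ψ q * (x.2 q : ℚ) = 0) →
      ∀ q, q < M → (d : ℤ) * x.2 q = ∑ π ∈ x.1, c π * (π q : ℤ)) := by
    intro x
    by_cases h : ∀ ψ : ℕ → ℚ, Ann M (x.1 : Set (ℕ → ℕ)) ψ →
        ∑ q ∈ Finset.range M, ψ q * (x.2 q : ℚ) = 0
    · obtain ⟨d, K, c, h1, h2, h3⟩ := LB_clear M x.1 x.2 h
      exact ⟨d, K, c, h1, h2, fun _ => h3⟩
    · exact ⟨1, 0, fun _ => 0, le_refl _, fun _ => by simp, fun h' => absurd h' h⟩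
  choose d K c hd hK hc using key
  have hpos : 0 < ∏ x ∈ I, d x := Finset.prod_pos fun x _ => hd x
  refine ⟨∏ x ∈ I, d x, ∑ x ∈ I, (∏ y ∈ I, d y) * K x, hpos, ?_⟩
  intro Q hQ δ hδ hann
  have hQS : Q ⊆ S := fun π hπ => (LB_finite M B).mem_toFinset.2 (hQ π hπ)
  have hx : ((Q, δ) : Finset (ℕ → ℕ) × (ℕ → ℤ)) ∈ I :=
    Finset.mem_product.2 ⟨Finset.mem_powerset.2 hQS, hδ⟩
  have hdvd : d (Q, δ) ∣ ∏ x ∈ I, d x := Finset.dvd_prod_of_mem _ hx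
  obtain ⟨m, hm⟩ := hdvd
  have hmle : m ≤ ∏ x ∈ I, d x := by
    rw [hm]
    exact Nat.le_mul_of_pos_left m (hd _)
  refine ⟨fun π => (m : ℤ) * c (Q, δ) π, fun π => ?_, fun q hq => ?_⟩
  · have h1 : |(m : ℤ) * c (Q, δ) π| ≤ (m : ℤ) * K (Q, δ) := by
      rw [abs_mul, abs_of_nonneg (by positivity : (0 : ℤ) ≤ (m : ℤ))]
      exact mul_le_mul_of_nonneg_left (hK _ π) (by positivity)
    have h2 : (∏ y ∈ I, d y) * K (Q, δ) ≤ ∑ x ∈ I, (∏ y ∈ I, d y) * K x :=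
      Finset.single_le_sum (f := fun x => (∏ y ∈ I, d y) * K x) (fun _ _ => Nat.zero_le _) hx
    have h3 : m * K (Q, δ) ≤ (∏ y ∈ I, d y) * K (Q, δ) := Nat.mul_le_mul_right _ hmle
    have h4 : m * K (Q, δ) ≤ ∑ x ∈ I, (∏ y ∈ I, d y) * K x := h3.trans h2
    calc |(m : ℤ) * c (Q, δ) π| ≤ (m : ℤ) * K (Q, δ) := h1
      _ ≤ _ := by exact_mod_cast h4
  · have h1 := hc (Q, δ) hann q hq
    rw [hm]
    push_cast
    calc (d (Q, δ) : ℤ) * m * δ q = m * ((d (Q, δ) : ℤ) * δ q) := by ring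
      _ = m * ∑ π ∈ Q, c (Q, δ) π * (π q : ℤ) := by rw [h1]
      _ = ∑ π ∈ Q, (m : ℤ) * c (Q, δ) π * (π q : ℤ) := by
          rw [Finset.mul_sum]
          exact Finset.sum_congr rfl fun π _ => by ring

end WZ
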